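import Pool.Agent.Lib.MP_ea8b67_al.Core

/-!
MP_ea8b67_al: the three Fitting classes.
-/

namespace Pool.Agent.Lib.MP_ea8b67_al

open Subgroup

/-- every 3'-element centralises the centre of `O3 G` -/
def CW (G : Type) [Group G] : Prop :=
  Finite G ∧ Group.IsSolvable G ∧
    ∀ h : G, (orderOf h).Coprime 3 → ∀ v ∈ O3 G, (∀ r ∈ O3 G, r * v = v * r) → h * v = v * h

/-- every nontrivial normal 3-subgroup meets the centre -/
def CZ (G : Type) [Group G] : Prop :=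
  Finite G ∧ Group.IsSolvable G ∧
    ∀ U : Subgroup G, U.Normal → IsPGroup 3 U → U ≠ ⊥ → ∃ z ∈ U, z ≠ 1 ∧ ∀ g : G, g * z = z * g

/-- normal Sylow 3-subgroup -/
def CY (G : Type) [Group G] : Prop :=
  Finite G ∧ Group.IsSolvable G ∧ ¬ 3 ∣ (O3 G).index

theorem prod_of_top (F : (G : Type) → [Group G] → Prop)
    (hiso : ∀ (G H : Type) [Group G] [Group H], (G ≃* H) → F G → F H)
    (htop : ∀ (G : Type) [Group G] [Finite G] (N M : Subgroup G), N.Normal → M.Normal →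
      N ⊔ M = ⊤ → F N → F M → F G) (G : Type) [Group G] [Finite G] (N M : Subgroup G)
    (hN : N.Normal) (hM : M.Normal) (h1 : F N) (h2 : F M) : F ↥(N ⊔ M) := by
  have e : N.subgroupOf (N ⊔ M) ⊔ M.subgroupOf (N ⊔ M) = ⊤ := by
    rw [← Subgroup.subgroupOf_sup le_sup_left le_sup_right, Subgroup.subgroupOf_self]
  exact htop _ (N.subgroupOf (N ⊔ M)) (M.subgroupOf (N ⊔ M)) inferInstance inferInstance e
    (hiso _ _ (Subgroup.subgroupOfEquivOfLe le_sup_left).symm h1)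
    (hiso _ _ (Subgroup.subgroupOfEquivOfLe le_sup_right).symm h2)

theorem solvable_top {G : Type} [Group G] (N M : Subgroup G) (hN : N.Normal) (h : N ⊔ M = ⊤)
    (h1 : Group.IsSolvable N) (h2 : Group.IsSolvable M) : Group.IsSolvable G := by
  have h3 := solvable_sup N M hN h1 h2
  rw [h] at h3
  exact Group.isSolvable_of_surjective (f := (Subgroup.topEquiv : (⊤ : Subgroup G) ≃* G).toMonoidHom)
    (Subgroup.topEquiv : (⊤ : Subgroup G) ≃* G).surjective

theorem solvable_iso {G H : Type} [Group G] [Group H] (e : G ≃* H) (h : Group.IsSolvable G) :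
    Group.IsSolvable H :=
  Group.isSolvable_of_surjective (f := e.toMonoidHom) e.surjective

/-! ### the class `CW` -/

theorem CW.iso (G H : Type) [Group G] [Group H] (e : G ≃* H) (h : CW G) : CW H := by
  obtain ⟨h1, h2, h3⟩ := h
  refine ⟨Finite.of_equiv _ e.toEquiv, solvable_iso e h2, fun x hx v hv hc => ?_⟩
  have h4 := h3 (e.symm x) (by rwa [MulEquiv.orderOf_eq]) (e.symm v)
    ((mem_O3_equiv e.symm v).2 hv) (fun r hr => by
      have := hc (e r) ((mem_O3_equiv e r).2 hr)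
      apply e.injective
      simpa using this)
  have h5 := congrArg e h4
  simpa using h5

theorem CW.normal (G : Type) [Group G] (N : Subgroup G) (hN : N.Normal) (h : CW G) : CW N := by
  obtain ⟨h1, h2, h3⟩ := h
  refine ⟨inferInstance, inferInstance, fun x hx v hv hc => ?_⟩
  -- work in `G`
  set V : Subgroup G := (O3 G ⊓ N) ⊓ Subgroup.centralizer ((O3 G ⊓ N : Subgroup G) : Set G)
    with hV
  have hVn : V.Normal := inferInstance
  have hVc : ∀ a ∈ V, ∀ b ∈ V, a * b = b * a := fun a ha b hb =>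
    (Subgroup.mem_centralizer_iff.1 hb.2 a ha.1)
  have hV3 : ∀ a ∈ V, ∃ k, a ^ 3 ^ k = 1 := fun a ha => by
    obtain ⟨k, hk⟩ := isPGroup_O3 (⟨a, ha.1.1⟩ : O3 G)
    exact ⟨k, by simpa using congrArg Subtype.val hk⟩
  -- `[V,x]` as a subgroup
  let U : Subgroup G :=
    { carrier := {u | ∃ a ∈ V, u = a⁻¹ * ((x : G) * a * (x : G)⁻¹)}
      one_mem' := ⟨1, V.one_mem, by simp⟩
      mul_mem' := by
        rintro _ _ ⟨a, ha, rfl⟩ ⟨b, hb, rfl⟩
        refine ⟨a * b, V.mul_mem ha hb, ?_⟩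
        have h4 : (x : G) * a * (x : G)⁻¹ ∈ V := hVn.conj_mem a ha x
        have h5 := hVc _ h4 _ (V.inv_mem hb)
        have h6 := hVc _ (V.inv_mem ha) _ (V.inv_mem hb)
        calc a⁻¹ * ((x : G) * a * (x : G)⁻¹) * (b⁻¹ * ((x : G) * b * (x : G)⁻¹))
            = a⁻¹ * (((x : G) * a * (x : G)⁻¹) * b⁻¹) * ((x : G) * b * (x : G)⁻¹) := by group
          _ = (a⁻¹ * b⁻¹) * ((x : G) * a * (x : G)⁻¹) * ((x : G) * b * (x : G)⁻¹) := by
              rw [h5]; group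
          _ = (a * b)⁻¹ * ((x : G) * (a * b) * (x : G)⁻¹) := by rw [h6]; group
      inv_mem' := by
        rintro _ ⟨a, ha, rfl⟩
        refine ⟨a⁻¹, V.inv_mem ha, ?_⟩
        have h4 : (x : G) * a⁻¹ * (x : G)⁻¹ ∈ V := hVn.conj_mem _ (V.inv_mem ha) x
        have h5 := hVc _ h4 _ ha
        calc (a⁻¹ * ((x : G) * a * (x : G)⁻¹))⁻¹ = ((x : G) * a⁻¹ * (x : G)⁻¹) * a := by group
          _ = a⁻¹⁻¹ * ((x : G) * a⁻¹ * (x : G)⁻¹) := by rw [h5]; group }
  have hUV : U ≤ V := by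
    rintro _ ⟨a, ha, rfl⟩
    exact V.mul_mem (V.inv_mem ha) (hVn.conj_mem a ha x)
  have hUn : ∀ r ∈ O3 G, ∀ u ∈ U, r * u * r⁻¹ ∈ U := by
    rintro r hr _ ⟨a, ha, rfl⟩
    refine ⟨r * a * r⁻¹, hVn.conj_mem a ha r, ?_⟩
    -- `[x⁻¹, r⁻¹]`-type commutator lies in `O3 G ⊓ N` and so centralises `V`
    have h4 : (r * x)⁻¹ * (x * r) ∈ (O3 G ⊓ N : Subgroup G) := by
      constructor
      · have e : (r * (x : G))⁻¹ * (x * r) = ((x : G)⁻¹ * r⁻¹ * (x : G)⁻¹⁻¹) * r := by group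
        rw [e]
        exact (O3 G).mul_mem (normal_O3.conj_mem _ ((O3 G).inv_mem hr) _) hr
      · have e : (r * (x : G))⁻¹ * (x * r) = (x : G)⁻¹ * (r⁻¹ * (x : G) * r⁻¹⁻¹) := by group
        rw [e]
        exact N.mul_mem (N.inv_mem x.2) (hN.conj_mem _ x.2 _)
    have h5 := Subgroup.mem_centralizer_iff.1 ha.2 _ h4
    have h6 : (r * (x : G)) * a * (r * (x : G))⁻¹ = (x * r) * a * (x * r)⁻¹ := by
      have e : ((x : G) * r) = (r * (x : G)) * ((r * (x : G))⁻¹ * (x * r)) := by group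
      calc (r * (x : G)) * a * (r * (x : G))⁻¹
          = (r * (x : G)) * (a * ((r * (x : G))⁻¹ * (x * r))) * ((r * (x : G))⁻¹ * (x * r))⁻¹ *
              (r * (x : G))⁻¹ := by group
        _ = (r * (x : G)) * (((r * (x : G))⁻¹ * (x * r)) * a) * ((r * (x : G))⁻¹ * (x * r))⁻¹ *
              (r * (x : G))⁻¹ := by rw [h5]
        _ = (x * r) * a * (x * r)⁻¹ := by group
    calc r * (a⁻¹ * ((x : G) * a * (x : G)⁻¹)) * r⁻¹
        = (r * a⁻¹ * r⁻¹) * ((r * (x : G)) * a * (r * (x : G))⁻¹) := by group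
      _ = (r * a⁻¹ * r⁻¹) * ((x * r) * a * (x * r)⁻¹) := by rw [h6]
      _ = (r * a * r⁻¹)⁻¹ * ((x : G) * (r * a * r⁻¹) * (x : G)⁻¹) := by group
  have hU3 : IsPGroup 3 U := by
    intro u
    obtain ⟨k, hk⟩ := hV3 u (hUV u.2)
    exact ⟨k, Subtype.ext (by simpa using hk)⟩
  have hxo : (orderOf (x : G)).Coprime 3 := by rwa [Subgroup.orderOf_coe]
  -- `U` is trivial
  have hUbot : U = ⊥ := by
    by_contra hne
    obtain ⟨u, hu, hu1, hur⟩ := exists_fixed (O3 G) U isPGroup_O3 hU3 hne hUn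
    have h4 := h3 x hxo u (hUV hu).1.1 hur
    obtain ⟨a, ha, rfl⟩ := hu
    obtain ⟨k, hk⟩ := hV3 _ (hUV ⟨a, ha, rfl⟩)
    have h5 := comm_of_tel hxo hk h4
    apply hu1
    rw [h5]; group
  have hvV : (v : G) ∈ V := by
    refine ⟨⟨(mem_O3_sub N hN v).1 hv, v.2⟩, Subgroup.mem_centralizer_iff.2 fun r hr => ?_⟩
    have h4 := hc ⟨r, hr.2⟩ ((mem_O3_sub N hN ⟨r, hr.2⟩).2 hr.1)
    simpa using congrArg Subtype.val h4
  have h6 : (v : G)⁻¹ * ((x : G) * v * (x : G)⁻¹) ∈ U := ⟨v, hvV, rfl⟩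
  rw [hUbot, Subgroup.mem_bot] at h6
  apply Subtype.ext
  change (x : G) * v = v * x
  have h7 : (x : G) * v * (x : G)⁻¹ = v := by
    have := congrArg (fun t => (v : G) * t) h6
    simpa [mul_assoc] using this
  exact mul_inv_eq_iff_eq_mul.1 h7

theorem CW.prod (G : Type) [Group G] [Finite G] (A B : Subgroup G) (hA : A.Normal)
    (hB : B.Normal) (hAB : A ⊔ B = ⊤) (h1 : CW A) (h2 : CW B) : CW G := by
  refine ⟨inferInstance, solvable_top A B hA hAB h1.2.1 h2.2.1, ?_⟩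
  set V : Subgroup G := O3 G ⊓ Subgroup.centralizer ((O3 G : Subgroup G) : Set G) with hV
  have hVn : V.Normal := inferInstance
  set K : Subgroup G := Subgroup.centralizer (V : Set G) with hK
  have hKn : K.Normal := inferInstance
  -- 3'-elements of `A` centralise `V`
  have key : ∀ A : Subgroup G, A.Normal → CW A → ∀ x ∈ A, (orderOf x).Coprime 3 → x ∈ K := by
    intro A hA h1 x hxA hx
    rw [hK, Subgroup.mem_centralizer_iff]
    intro v hv
    have hw : v⁻¹ * (x * v * x⁻¹) ∈ V := V.mul_mem (V.inv_mem hv) (hVn.conj_mem v hv x)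
    have hwA : v⁻¹ * (x * v * x⁻¹) ∈ A := by
      have e : v⁻¹ * (x * v * x⁻¹) = (v⁻¹ * x * v⁻¹⁻¹) * x⁻¹ := by group
      rw [e]
      exact A.mul_mem (hA.conj_mem x hxA _) (A.inv_mem hxA)
    obtain ⟨k, hk⟩ := isPGroup_O3 (⟨_, hw.1⟩ : O3 G)
    have hk' : (v⁻¹ * (x * v * x⁻¹)) ^ 3 ^ k = 1 := by simpa using congrArg Subtype.val hk
    have h3 := h1.2.2 ⟨x, hxA⟩ (by rwa [← Subgroup.orderOf_coe]) ⟨_, hwA⟩
      ((mem_O3_sub A hA _).2 hw.1) (fun r hr => by
        apply Subtype.ext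
        exact Subgroup.mem_centralizer_iff.1 hw.2 r ((mem_O3_sub A hA r).1 hr))
    have h4 : x * (v⁻¹ * (x * v * x⁻¹)) = (v⁻¹ * (x * v * x⁻¹)) * x := by
      simpa using congrArg Subtype.val h3
    exact (comm_of_tel hx hk' h4).symm
  -- the image of `A` modulo `K` is a 3-group
  have key2 : ∀ A : Subgroup G, A.Normal → CW A →
      IsPGroup 3 (A.map (QuotientGroup.mk' K)) := by
    rintro A hA h1 ⟨_, ⟨a, ha, rfl⟩⟩
    obtain ⟨k, m, hm, hkm⟩ := Nat.exists_eq_pow_mul_and_not_dvd (orderOf_pos a).ne' 3 (by norm_num)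
    refine ⟨k, Subtype.ext ?_⟩
    have h3 : a ^ 3 ^ k ∈ K := by
      refine key A hA h1 _ (A.pow_mem ha _) ?_
      have h4 : orderOf (a ^ 3 ^ k) = m := by
        rw [orderOf_pow' _ (by positivity), hkm, Nat.gcd_eq_right (Dvd.intro _ rfl)]
        exact Nat.mul_div_cancel_left _ (by positivity)
      rw [h4]
      exact ((Nat.Prime.coprime_iff_not_dvd Nat.prime_three).2 hm).symm
    change ((QuotientGroup.mk' K) a) ^ 3 ^ k = 1
    rw [← map_pow]
    exact (QuotientGroup.eq_one_iff _).2 h3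
  have h5 : IsPGroup 3 ((A ⊔ B).map (QuotientGroup.mk' K)) := by
    rw [Subgroup.map_sup]
    have : (B.map (QuotientGroup.mk' K)).Normal := hB.map _ (QuotientGroup.mk'_surjective K)
    exact (key2 A hA h1).to_sup_of_normal_right (key2 B hB h2)
  intro x hx v hv hc
  have h6 : (QuotientGroup.mk' K) x ∈ (A ⊔ B).map (QuotientGroup.mk' K) :=
    Subgroup.mem_map_of_mem _ (by rw [hAB]; trivial)
  obtain ⟨k, hk⟩ := h5 ⟨_, h6⟩
  have h7 : ((QuotientGroup.mk' K) x) ^ 3 ^ k = 1 := by simpa using congrArg Subtype.val hk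
  have h8 : ((QuotientGroup.mk' K) x) ^ orderOf x = 1 := by
    rw [← map_pow, pow_orderOf_eq_one, map_one]
  have h9 := eq_one_of_pow h7 h8 hx
  have h10 : x ∈ K := (QuotientGroup.eq_one_iff _).1 h9
  have hvV : v ∈ V := ⟨hv, Subgroup.mem_centralizer_iff.2 fun r hr => hc r hr⟩
  exact (Subgroup.mem_centralizer_iff.1 h10 v hvV).symm

end Pool.Agent.Lib.MP_ea8b67_al
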