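import Pool.Agent.Lib.MP_ea8b67_al.Classes

/-!
MP_ea8b67_al: the classes `CZ` and `CY`, and the inclusions between the classes.
-/

namespace Pool.Agent.Lib.MP_ea8b67_al

open Subgroup

/-! ### the class `CZ` -/

theorem CZ.iso (G H : Type) [Group G] [Group H] (e : G ≃* H) (h : CZ G) : CZ H := by
  obtain ⟨h1, h2, h3⟩ := h
  refine ⟨Finite.of_equiv _ e.toEquiv, solvable_iso e h2, fun U hU hU3 hne => ?_⟩
  have h4 : (U.comap e.toMonoidHom).Normal := hU.comap _
  have h5 : IsPGroup 3 (U.comap e.toMonoidHom) := hU3.comap_of_injective _ e.injective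
  have h6 : U.comap e.toMonoidHom ≠ ⊥ := by
    intro hb
    apply hne
    rw [eq_bot_iff]
    intro u hu
    have : e.symm u ∈ U.comap e.toMonoidHom := by simpa [mem_comap] using hu
    rw [hb, mem_bot] at this
    simpa using this
  obtain ⟨z, hz, hz1, hzc⟩ := h3 _ h4 h5 h6
  refine ⟨e z, hz, by simpa using hz1, fun g => ?_⟩
  have := congrArg e (hzc (e.symm g))
  simpa using this

/-- minimal normal subgroups -/
theorem exists_min_normal {G : Type} [Group G] [Finite G] (U : Subgroup G) (hU : U.Normal)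
    (hne : U ≠ ⊥) : ∃ M : Subgroup G, M.Normal ∧ M ≠ ⊥ ∧ M ≤ U ∧
      ∀ K : Subgroup G, K.Normal → K ≠ ⊥ → K ≤ M → K = M := by
  have hfin : ({M : Subgroup G | M.Normal ∧ M ≠ ⊥ ∧ M ≤ U}).Finite := Set.toFinite _
  obtain ⟨M, hM⟩ := hfin.exists_minimal ⟨U, hU, hne, le_rfl⟩
  refine ⟨M, hM.prop.1, hM.prop.2.1, hM.prop.2.2, fun K hK hKne hKM => ?_⟩
  exact le_antisymm hKM (hM.2 ⟨hK, hKne, hKM.trans hM.prop.2.2⟩ hKM)

theorem CZ.prod (G : Type) [Group G] [Finite G] (A B : Subgroup G) (hA : A.Normal)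
    (hB : B.Normal) (hAB : A ⊔ B = ⊤) (h1 : CZ A) (h2 : CZ B) : CZ G := by
  refine ⟨inferInstance, solvable_top A B hA hAB h1.2.1 h2.2.1, fun U hU hU3 hne => ?_⟩
  obtain ⟨M, hM, hMne, hMU, hMmin⟩ := exists_min_normal U hU hne
  have hM3 : IsPGroup 3 M := hU3.to_le hMU
  have key : ∀ A : Subgroup G, A.Normal → CZ A → A ≤ Subgroup.centralizer (M : Set G) := by
    intro A hA h1
    by_cases hd : M ⊓ A = ⊥
    · intro a ha
      rw [Subgroup.mem_centralizer_iff]
      intro m hm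
      exact (Subgroup.commute_of_normal_of_disjoint M A hM hA (disjoint_iff.2 hd) m a hm ha)
    · have h3 : M ⊓ A = M := hMmin _ inferInstance hd inf_le_left
      have hMA : M ≤ A := by rw [← h3]; exact inf_le_right
      have h4 : (M.subgroupOf A).Normal := inferInstance
      have h5 : IsPGroup 3 (M.subgroupOf A) := hM3.comap_of_injective _ Subtype.val_injective
      have h6 : M.subgroupOf A ≠ ⊥ := by
        intro hb
        rw [Subgroup.subgroupOf_eq_bot] at hb
        exact hMne (by rw [← h3]; exact disjoint_iff.1 hb)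
      obtain ⟨z, hz, hz1, hzc⟩ := h1.2.2 _ h4 h5 h6
      have h7 : M ⊓ Subgroup.centralizer (A : Set G) = M := by
        refine hMmin _ inferInstance (fun hb => hz1 ?_) inf_le_left
        have : (z : G) ∈ M ⊓ Subgroup.centralizer (A : Set G) := by
          refine ⟨hz, Subgroup.mem_centralizer_iff.2 fun a ha => ?_⟩
          exact congrArg Subtype.val (hzc ⟨a, ha⟩)
        rw [hb, Subgroup.mem_bot] at this
        exact Subtype.ext this
      have h8 : M ≤ Subgroup.centralizer (A : Set G) := by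
        rw [← h7]; exact inf_le_right
      rwa [Subgroup.le_centralizer_iff]
  have h3 : (⊤ : Subgroup G) ≤ Subgroup.centralizer (M : Set G) := by
    rw [← hAB]; exact sup_le (key A hA h1) (key B hB h2)
  obtain ⟨z, hz1'⟩ := Subgroup.ne_bot_iff_exists_ne_one.1 hMne
  have hz : (z : G) ∈ M := z.2
  have hz1 : (z : G) ≠ 1 := fun h => hz1' (Subtype.ext h)
  exact ⟨z, hMU hz, hz1, fun g => (Subgroup.mem_centralizer_iff.1 (h3 (mem_top g)) z hz).symm⟩

theorem CZ.normal (G : Type) [Group G] (N : Subgroup G) (hN : N.Normal) (h : CZ G) : CZ N := by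
  obtain ⟨h1, h2, h3⟩ := h
  refine ⟨inferInstance, inferInstance, fun U' hU' hU3' hne' => ?_⟩
  obtain ⟨M, hM, hMne, hMU, hMmin⟩ := exists_min_normal U' hU' hne'
  by_contra hcon
  push Not at hcon
  -- the minimal normal subgroup of `N`, seen in `G`
  set U : Subgroup G := M.map N.subtype with hU
  have hUN : U ≤ N := by
    rintro _ ⟨m, _, rfl⟩
    exact m.2
  have hUn : ∀ n ∈ N, ∀ u ∈ U, n * u * n⁻¹ ∈ U := by
    rintro n hn _ ⟨m, hm, rfl⟩
    exact ⟨⟨n, hn⟩ * m * ⟨n, hn⟩⁻¹, hM.conj_mem m hm _, rfl⟩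
  have hU3 : IsPGroup 3 U := (hU3'.to_le hMU).map _
  have hUfix : ∀ u ∈ U, (∀ n ∈ N, n * u = u * n) → u = 1 := by
    rintro _ ⟨m, hm, rfl⟩ hc
    by_contra hm1
    obtain ⟨g, hg⟩ := hcon m (hMU hm) (fun h => hm1 (by rw [h]; rfl))
    exact hg (Subtype.ext (hc g g.2))
  have hUmin : ∀ K : Subgroup G, (∀ n ∈ N, ∀ u ∈ K, n * u * n⁻¹ ∈ K) → K ≠ ⊥ → K ≤ U → K = U := by
    intro K hK hKne hKU
    have hKN : K ≤ N := hKU.trans hUN
    have h4 : (K.subgroupOf N).Normal := ⟨fun n hn g => hK g g.2 n hn⟩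
    have h5 : K.subgroupOf N ≠ ⊥ := by
      intro hb
      rw [Subgroup.subgroupOf_eq_bot] at hb
      apply hKne
      rw [eq_bot_iff]
      intro x hx
      exact (Subgroup.disjoint_def.1 hb) hx (hKN hx)
    have h6 : K.subgroupOf N ≤ M := by
      intro x hx
      obtain ⟨m, hm, hmx⟩ := hKU (Subgroup.mem_subgroupOf.1 hx)
      have : m = x := Subtype.ext hmx
      rwa [← this]
    have h7 := hMmin _ h4 h5 h6
    rw [hU, ← h7, Subgroup.map_subgroupOf_eq_of_le hKN]
  -- conjugates of `U`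
  have hconj : ∀ (g : G) (K : Subgroup G), (∀ n ∈ N, ∀ u ∈ K, n * u * n⁻¹ ∈ K) →
      ∀ n ∈ N, ∀ u ∈ K.map (MulAut.conj g).toMonoidHom, n * u * n⁻¹ ∈
        K.map (MulAut.conj g).toMonoidHom := by
    rintro g K hK n hn _ ⟨k, hk, rfl⟩
    have h4 : g⁻¹ * n * g⁻¹⁻¹ ∈ N := hN.conj_mem n hn g⁻¹
    refine ⟨(g⁻¹ * n * g⁻¹⁻¹) * k * (g⁻¹ * n * g⁻¹⁻¹)⁻¹, hK _ h4 k hk, ?_⟩
    simp only [MulEquiv.coe_toMonoidHom, MulAut.conj_apply]
    group
  -- maximal `N`-invariant subgroup without fixed points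
  have hfin : ({V : Subgroup G | V ≤ N ∧ (∀ n ∈ N, ∀ u ∈ V, n * u * n⁻¹ ∈ V) ∧
      (∀ u ∈ V, (∀ n ∈ N, n * u = u * n) → u = 1)}).Finite := Set.toFinite _
  obtain ⟨V, hV⟩ := hfin.exists_maximal ⟨⊥, bot_le, fun n _ u hu => by
    rw [Subgroup.mem_bot] at hu ⊢
    rw [hu]; simp, fun u hu _ => by rwa [Subgroup.mem_bot] at hu⟩
  obtain ⟨hVN, hVn, hVfix⟩ := hV.prop
  have hle : ∀ g : G, U.map (MulAut.conj g).toMonoidHom ≤ V := by
    intro g
    by_contra hnot
    set Ug : Subgroup G := U.map (MulAut.conj g).toMonoidHom with hUg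
    have hUgn := hconj g U hUn
    have hUgN : Ug ≤ N := by
      rintro _ ⟨u, hu, rfl⟩
      exact hN.conj_mem u (hUN hu) g
    -- `Ug ∩ V` is trivial
    have hd : Ug ⊓ V = ⊥ := by
      by_contra hne
      apply hnot
      -- pull back by conjugation
      have h4 : (Ug ⊓ V).map (MulAut.conj g⁻¹).toMonoidHom = U := by
        apply hUmin
        · apply hconj
          intro n hn u hu
          exact ⟨hUgn n hn u hu.1, hVn n hn u hu.2⟩
        · intro hb
          apply hne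
          rw [Subgroup.map_eq_bot_iff_of_injective _ (MulEquiv.injective _)] at hb
          exact hb
        · rintro _ ⟨x, ⟨⟨u, hu, rfl⟩, _⟩, rfl⟩
          simpa [mul_assoc] using hu
      intro x hx
      obtain ⟨u, hu, rfl⟩ := hx
      rw [← h4] at hu
      obtain ⟨y, hy, rfl⟩ := hu
      have : (MulAut.conj g).toMonoidHom ((MulAut.conj g⁻¹).toMonoidHom y) = y := by
        simp [mul_assoc]
      rw [this]
      exact hy.2
    have hd' : ∀ x, x ∈ V → x ∈ Ug → x = 1 := fun x h4 h5 => by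
      have : x ∈ Ug ⊓ V := ⟨h5, h4⟩
      rwa [hd, Subgroup.mem_bot] at this
    have hcomm : ∀ v ∈ V, ∀ u ∈ Ug, v * u = u * v := by
      intro v hv u hu
      have h4 : v * (u * v⁻¹ * u⁻¹) = 1 := by
        apply hd'
        · exact V.mul_mem hv (hVn u (hUgN hu) _ (V.inv_mem hv))
        · have e : v * (u * v⁻¹ * u⁻¹) = (v * u * v⁻¹) * u⁻¹ := by group
          rw [e]
          exact Ug.mul_mem (hUgn v (hVN hv) u hu) (Ug.inv_mem hu)
      have h5 : v * u * (u * v)⁻¹ = 1 := by rw [← h4]; group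
      exact mul_inv_eq_one.1 h5
    -- enlarge `V`
    let V' : Subgroup G :=
      { carrier := {x | ∃ v ∈ V, ∃ u ∈ Ug, x = v * u}
        one_mem' := ⟨1, V.one_mem, 1, Ug.one_mem, by simp⟩
        mul_mem' := by
          rintro _ _ ⟨v, hv, u, hu, rfl⟩ ⟨v', hv', u', hu', rfl⟩
          refine ⟨v * v', V.mul_mem hv hv', u * u', Ug.mul_mem hu hu', ?_⟩
          calc v * u * (v' * u') = v * (u * v') * u' := by group
            _ = v * (v' * u) * u' := by rw [hcomm v' hv' u hu]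
            _ = v * v' * (u * u') := by group
        inv_mem' := by
          rintro _ ⟨v, hv, u, hu, rfl⟩
          refine ⟨v⁻¹, V.inv_mem hv, u⁻¹, Ug.inv_mem hu, ?_⟩
          rw [mul_inv_rev, hcomm _ (V.inv_mem hv) _ (Ug.inv_mem hu)] }
    have h5 : V' ≤ V := by
      refine hV.2 ⟨?_, ?_, ?_⟩ (fun v hv => ⟨v, hv, 1, Ug.one_mem, by simp⟩)
      · rintro _ ⟨v, hv, u, hu, rfl⟩
        exact N.mul_mem (hVN hv) (hUgN hu)
      · rintro n hn _ ⟨v, hv, u, hu, rfl⟩
        refine ⟨n * v * n⁻¹, hVn n hn v hv, n * u * n⁻¹, hUgn n hn u hu, by group⟩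
      · rintro _ ⟨v, hv, u, hu, rfl⟩ hfix
        have h6 : ∀ n ∈ N, v⁻¹ * (n * v * n⁻¹) = 1 := by
          intro n hn
          apply hd'
          · exact V.mul_mem (V.inv_mem hv) (hVn n hn v hv)
          · have e : v⁻¹ * (n * v * n⁻¹) = u * (n * u * n⁻¹)⁻¹ := by
              have := hfix n hn
              have e2 : n * v * n⁻¹ * (n * u * n⁻¹) = v * u := by
                calc n * v * n⁻¹ * (n * u * n⁻¹) = n * (v * u) * n⁻¹ := by group
                  _ = v * u := by rw [this]; group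
              calc v⁻¹ * (n * v * n⁻¹)
                  = v⁻¹ * (n * v * n⁻¹ * (n * u * n⁻¹)) * (n * u * n⁻¹)⁻¹ := by group
                _ = u * (n * u * n⁻¹)⁻¹ := by rw [e2]; group
            rw [e]
            exact Ug.mul_mem hu (Ug.inv_mem (hUgn n hn u hu))
        have h7 : v = 1 := by
          refine hVfix v hv fun n hn => ?_
          have := inv_mul_eq_one.1 (h6 n hn)
          exact (mul_inv_eq_iff_eq_mul.1 this.symm)
        rw [h7, one_mul]
        obtain ⟨m, hm, rfl⟩ := hu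
        have h8 : m = 1 := by
          refine hUfix m hm fun n hn => ?_
          have h9 := hfix (g * n * g⁻¹) (hN.conj_mem n hn g)
          rw [h7, one_mul] at h9
          simp only [MulEquiv.coe_toMonoidHom, MulAut.conj_apply] at h9
          have h10 : g * (n * m) * g⁻¹ = g * (m * n) * g⁻¹ := by
            calc g * (n * m) * g⁻¹ = g * n * g⁻¹ * (g * m * g⁻¹) := by group
              _ = g * m * g⁻¹ * (g * n * g⁻¹) := h9
              _ = g * (m * n) * g⁻¹ := by group
          exact mul_left_cancel (mul_right_cancel h10)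
        rw [h8]; simp
    apply hnot
    intro x hx
    exact h5 ⟨1, V.one_mem, x, hx, by simp⟩
  -- the normal closure of `U` is contained in `V`
  have h6 : Subgroup.normalClosure (U : Set G) ≤ V := by
    rw [Subgroup.normalClosure, Subgroup.closure_le]
    intro x hx
    obtain ⟨u, hu, hc⟩ := Group.mem_conjugatesOfSet_iff.1 hx
    obtain ⟨c, hc⟩ := isConj_iff.1 hc
    exact hle c ⟨u, hu, hc⟩
  have h7 : U ≤ O3 G := by
    rintro _ ⟨m, hm, rfl⟩
    exact (mem_O3_sub N hN m).1 (le_O3 M hM (hU3'.to_le hMU) hm)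
  have h8 : Subgroup.normalClosure (U : Set G) ≤ O3 G := Subgroup.normalClosure_le_normal h7
  have h9 : Subgroup.normalClosure (U : Set G) ≠ ⊥ := by
    intro hb
    apply hMne
    have h10 : U ≤ ⊥ := by rw [← hb]; exact Subgroup.le_normalClosure
    rw [le_bot_iff, hU, Subgroup.map_eq_bot_iff_of_injective _ Subtype.val_injective] at h10
    exact h10
  obtain ⟨z, hz, hz1, hzc⟩ := h3 _ inferInstance (isPGroup_O3.to_le h8) h9
  exact hz1 (hVfix z (h6 hz) fun n _ => hzc n)

end Pool.Agent.Lib.MP_ea8b67_al
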