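import Pool.Agent.Lib.MP_ea8b67_al.Classes2

/-!
MP_ea8b67_al: the class `CY`, and the inclusions between the classes.
-/

namespace Pool.Agent.Lib.MP_ea8b67_al

open Subgroup

/-! ### the class `CY` -/

theorem CY.iso (G H : Type) [Group G] [Group H] (e : G ≃* H) (h : CY G) : CY H := by
  obtain ⟨h1, h2, h3⟩ := h
  refine ⟨Finite.of_equiv _ e.toEquiv, solvable_iso e h2, ?_⟩
  have h4 : (O3 G).map (e : G →* H) = O3 H := by
    apply le_antisymm (map_O3_le e.toMonoidHom e.surjective)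
    intro x hx
    exact ⟨e.symm x, (mem_O3_equiv e.symm x).2 hx, by simp⟩
  rw [← h4, Subgroup.index_map_equiv]
  exact h3

theorem O3_subgroupOf {G : Type} [Group G] (N : Subgroup G) (hN : N.Normal) :
    (O3 G).subgroupOf N = O3 N := by
  ext x
  rw [Subgroup.mem_subgroupOf, mem_O3_sub N hN]

theorem CY.normal (G : Type) [Group G] (N : Subgroup G) (hN : N.Normal) (h : CY G) : CY N := by
  obtain ⟨h1, h2, h3⟩ := h
  refine ⟨inferInstance, inferInstance, fun h4 => h3 ?_⟩
  rw [← O3_subgroupOf N hN] at h4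
  exact h4.trans (Subgroup.relIndex_dvd_index_of_normal (O3 G) N)

theorem CY.prod (G : Type) [Group G] [Finite G] (A B : Subgroup G) (hA : A.Normal)
    (hB : B.Normal) (hAB : A ⊔ B = ⊤) (h1 : CY A) (h2 : CY B) : CY G := by
  refine ⟨inferInstance, solvable_top A B hA hAB h1.2.1 h2.2.1, fun h3 => ?_⟩
  have hA3 : ¬ 3 ∣ (O3 G).relIndex A := by
    have := h1.2.2
    rwa [← O3_subgroupOf A hA] at this
  have hB3 : ¬ 3 ∣ (O3 G).relIndex B := by
    have := h2.2.2
    rwa [← O3_subgroupOf B hB] at this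
  have e1 : (O3 G).index = (O3 G).relIndex A * (A ⊔ O3 G).index := by
    rw [← Subgroup.relIndex_mul_index (le_sup_right : O3 G ≤ A ⊔ O3 G),
      Subgroup.relIndex_sup_right]
  have e2 : (A ⊔ O3 G).index ∣ (O3 G).relIndex B := by
    have h4 : (A ⊔ O3 G).Normal := inferInstance
    have h5 : (A ⊔ O3 G).index = (A ⊔ O3 G).relIndex B := by
      rw [← Subgroup.relIndex_sup_right B (A ⊔ O3 G), ← Subgroup.relIndex_top_right]
      congr 1
      refine (eq_top_iff.2 ?_).symm
      rw [← hAB]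
      exact sup_le (le_sup_left.trans le_sup_right) le_sup_left
    rw [h5]
    exact Subgroup.relIndex_dvd_of_le_left B le_sup_right
  rw [e1] at h3
  rcases (Nat.Prime.dvd_mul Nat.prime_three).1 h3 with h | h
  · exact hA3 h
  · exact hB3 (h.trans e2)

/-! ### inclusions -/

theorem gen_top {G : Type} [Group G] [Finite G] (C : Subgroup G) (P : Sylow 3 G)
    (hP : (P : Subgroup G) ≤ C) (h : ∀ x : G, (orderOf x).Coprime 3 → x ∈ C) : C = ⊤ := by
  rw [← Subgroup.index_eq_one]
  by_contra hne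
  obtain ⟨q, hq, hqd⟩ := Nat.exists_prime_and_dvd hne
  have : Fact q.Prime := ⟨hq⟩
  by_cases hq3 : q = 3
  · subst hq3
    exact P.not_dvd_index (hqd.trans (Subgroup.index_dvd_of_le hP))
  · obtain ⟨Q⟩ : Nonempty (Sylow q G) := inferInstance
    have hQ : (Q : Subgroup G) ≤ C := by
      intro x hx
      apply h
      obtain ⟨k, hk⟩ := (IsPGroup.iff_orderOf.1 Q.2) ⟨x, hx⟩
      rw [Subgroup.orderOf_mk] at hk
      rw [hk]
      exact Nat.Coprime.pow_left k ((Nat.coprime_primes hq Nat.prime_three).2 hq3)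
    exact Q.not_dvd_index (hqd.trans (Subgroup.index_dvd_of_le hQ))

theorem CW.sub_CZ (G : Type) [Group G] (h : CW G) : CZ G := by
  obtain ⟨h1, h2, h3⟩ := h
  refine ⟨h1, h2, fun U hU hU3 hne => ?_⟩
  have hUR : U ≤ O3 G := le_O3 U hU hU3
  obtain ⟨u, hu, hu1, hur⟩ := exists_fixed (O3 G) U isPGroup_O3 hU3 hne
    (fun r _ u hu => hU.conj_mem u hu r)
  set V : Subgroup G := U ⊓ Subgroup.centralizer ((O3 G : Subgroup G) : Set G) with hV
  have hVn : V.Normal := inferInstance
  have hVne : V ≠ ⊥ := by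
    intro hb
    apply hu1
    have : u ∈ V := ⟨hu, Subgroup.mem_centralizer_iff.2 fun r hr => hur r hr⟩
    rwa [hb, Subgroup.mem_bot] at this
  obtain ⟨P⟩ : Nonempty (Sylow 3 G) := inferInstance
  obtain ⟨z, hz, hz1, hzP⟩ := exists_fixed (P : Subgroup G) V P.2 (hU3.to_le inf_le_left) hVne
    (fun r _ u hu => hVn.conj_mem u hu r)
  refine ⟨z, hz.1, hz1, ?_⟩
  have h4 : Subgroup.centralizer ({z} : Set G) = ⊤ := by
    apply gen_top _ P
    · intro x hx
      rw [Subgroup.mem_centralizer_singleton_iff]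
      exact hzP x hx
    · intro x hx
      rw [Subgroup.mem_centralizer_singleton_iff]
      exact h3 x hx z (hUR hz.1) fun r hr => Subgroup.mem_centralizer_iff.1 hz.2 r hr
  intro g
  have : g ∈ Subgroup.centralizer ({z} : Set G) := by rw [h4]; trivial
  exact (Subgroup.mem_centralizer_singleton_iff.1 this)

theorem YZ_sub_W (G : Type) [Group G] (hy : CY G) (hz : CZ G) : CW G := by
  obtain ⟨h1, h2, h3⟩ := hz
  refine ⟨h1, h2, ?_⟩
  have hcop : Nat.Coprime (Nat.card (O3 G)) (O3 G).index := by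
    obtain ⟨n, hn⟩ := (IsPGroup.iff_card.1 (isPGroup_O3 (G := G)))
    rw [hn]
    exact Nat.Coprime.pow_left n ((Nat.Prime.coprime_iff_not_dvd Nat.prime_three).2 hy.2.2)
  obtain ⟨H, hH⟩ := Subgroup.exists_right_complement'_of_coprime hcop
  set V : Subgroup G := O3 G ⊓ Subgroup.centralizer ((O3 G : Subgroup G) : Set G) with hV
  have hVn : V.Normal := inferInstance
  have hVc : ∀ a b : V, a * b = b * a := fun a b => Subtype.ext
    (Subgroup.mem_centralizer_iff.1 b.2.2 a a.2.1)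
  let _ : CommGroup V := { (inferInstance : Group V) with mul_comm := hVc }
  let _ : Fintype H := Fintype.ofFinite H
  let f : G → V →* V := fun g => (MulAut.conjNormal g : MulAut V).toMonoidHom
  have hf : ∀ g (v : V), ((f g v : V) : G) = g * v * g⁻¹ := fun g v => rfl
  have hfm : ∀ g g' (v : V), f (g * g') v = f g (f g' v) := fun g g' v => by
    apply Subtype.ext
    rw [hf, hf, hf]; group
  let φ : V →* V := ∏ h : H, f (h : G)
  have hφ : ∀ v, φ v = ∏ h : H, f (h : G) v := fun v => MonoidHom.finsetProd_apply _ _ _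
  have hφH : ∀ (g : H) (v : V), φ (f g v) = φ v := by
    intro g v
    rw [hφ, hφ]
    refine Fintype.prod_equiv (Equiv.mulRight g) _ _ fun h => ?_
    rw [← hfm]; rfl
  have hrh : ∀ g : G, ∃ r ∈ O3 G, ∃ h ∈ H, g = r * h := by
    intro g
    obtain ⟨⟨r, h⟩, hrh⟩ := hH.2 g
    exact ⟨r, r.2, h, h.2, hrh.symm⟩
  have hr1 : ∀ r ∈ O3 G, ∀ v : V, f r v = v := by
    intro r hr v
    apply Subtype.ext
    rw [hf]
    have := Subgroup.mem_centralizer_iff.1 v.2.2 r hr
    rw [this]; group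
  have hφG : ∀ (g : G) (v : V), φ (f g v) = φ v := by
    intro g v
    obtain ⟨r, hr, h, hh, rfl⟩ := hrh g
    rw [hfm, hr1 r hr]
    exact hφH ⟨h, hh⟩ v
  have hKn : (φ.ker.map V.subtype).Normal := by
    refine ⟨?_⟩
    rintro _ ⟨v, hv, rfl⟩ g
    refine ⟨f g v, ?_, rfl⟩
    change φ (f g v) = 1
    rw [hφG]
    exact hv
  have hK3 : IsPGroup 3 (φ.ker.map V.subtype) := by
    refine IsPGroup.to_le isPGroup_O3 ?_
    rintro _ ⟨v, hv, rfl⟩
    exact v.2.1
  have hker : φ.ker = ⊥ := by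
    by_contra hne
    obtain ⟨z, ⟨v, hv, rfl⟩, hz1, hzc⟩ := h3 _ hKn hK3 (fun hb => hne
      ((Subgroup.map_eq_bot_iff_of_injective _ Subtype.val_injective).1 hb))
    apply hz1
    have h4 : ∀ h : H, f (h : G) v = v := by
      intro h
      apply Subtype.ext
      rw [hf]
      have := hzc (h : G)
      change (h : G) * (v : G) = v * h at this
      rw [this]; group
    have h5 : v ^ Nat.card H = 1 := by
      have h6 : φ v = 1 := hv
      rw [hφ, Finset.prod_congr rfl (fun h _ => h4 h), Finset.prod_const, Finset.card_univ,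
        ← Nat.card_eq_fintype_card] at h6
      exact h6
    obtain ⟨k, hk⟩ := isPGroup_O3 (⟨v, v.2.1⟩ : O3 G)
    have hk' : (v : G) ^ 3 ^ k = 1 := by simpa using congrArg Subtype.val hk
    have h5' : (v : G) ^ Nat.card H = 1 := by simpa using congrArg Subtype.val h5
    refine eq_one_of_pow hk' h5' ?_
    rw [← hH.symm.index_eq_card]
    exact ((Nat.Prime.coprime_iff_not_dvd Nat.prime_three).2 hy.2.2).symm
  intro x _ v hv hc
  have hvV : v ∈ V := ⟨hv, Subgroup.mem_centralizer_iff.2 fun r hr => hc r hr⟩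
  have h4 : f x ⟨v, hvV⟩ = ⟨v, hvV⟩ := by
    have h5 : (⟨v, hvV⟩ : V)⁻¹ * f x ⟨v, hvV⟩ ∈ φ.ker := by
      rw [MonoidHom.mem_ker, map_mul, map_inv, hφG, inv_mul_cancel]
    rw [hker, Subgroup.mem_bot] at h5
    exact (inv_mul_eq_one.1 h5).symm
  have h5 : x * v * x⁻¹ = v := congrArg Subtype.val h4
  exact mul_inv_eq_iff_eq_mul.1 h5

end Pool.Agent.Lib.MP_ea8b67_al
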