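import Mathlib

/-!
MP_ea8b67_al: the lattice of soluble Fitting classes is not modular.
Basic facts on the largest normal 3-subgroup `O3 G`.
-/

namespace Pool.Agent.Lib.MP_ea8b67_al

open Subgroup

instance fact3 : Fact (Nat.Prime 3) := ⟨Nat.prime_three⟩

/-- the largest normal 3-subgroup -/
def O3 (G : Type) [Group G] : Subgroup G := ⨅ P : Sylow 3 G, (P : Subgroup G)

section
variable {G : Type} [Group G]

theorem isPGroup_O3 : IsPGroup 3 (O3 G) := by
  obtain ⟨P⟩ : Nonempty (Sylow 3 G) := inferInstance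
  exact P.2.to_le (iInf_le _ P)

theorem le_O3 (N : Subgroup G) (hn : N.Normal) (h : IsPGroup 3 N) : N ≤ O3 G := by
  refine le_iInf fun P => ?_
  have h1 : IsPGroup 3 (N ⊔ P : Subgroup G) := h.to_sup_of_normal_left P.2
  have h2 := P.is_maximal' h1 le_sup_right
  exact le_sup_left.trans h2.le

instance normal_O3 : (O3 G).Normal := by
  refine ⟨fun n hn g => ?_⟩
  rw [O3, mem_iInf] at hn ⊢
  intro P
  have h := hn (g⁻¹ • P)
  change n ∈ ((g⁻¹ • P : Sylow 3 G) : Subgroup G) at h
  rw [Sylow.coe_subgroup_smul, Subgroup.mem_pointwise_smul_iff_inv_smul_mem] at h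
  simpa [MulAut.smul_def] using h

theorem map_O3_le {H : Type} [Group H] (f : G →* H) (hf : Function.Surjective f) :
    (O3 G).map f ≤ O3 H :=
  le_O3 _ (normal_O3.map f hf) (isPGroup_O3.map f)

instance char_O3 : (O3 G).Characteristic := by
  rw [characteristic_iff_map_le]
  intro φ
  exact map_O3_le φ.toMonoidHom φ.surjective

theorem mem_O3_equiv {H : Type} [Group H] (e : G ≃* H) (x : G) : e x ∈ O3 H ↔ x ∈ O3 G := by
  constructor
  · intro h
    have := map_O3_le e.symm.toMonoidHom e.symm.surjective (mem_map_of_mem _ h)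
    simpa using this
  · intro h
    exact map_O3_le e.toMonoidHom e.surjective (mem_map_of_mem _ h)

/-- `O3 N = N ∩ O3 G` for a normal subgroup `N` -/
theorem mem_O3_sub (N : Subgroup G) (hN : N.Normal) (x : N) : x ∈ O3 N ↔ (x : G) ∈ O3 G := by
  constructor
  · intro h
    have h1 : ((O3 N).map N.subtype).Normal := inferInstance
    exact le_O3 _ h1 (isPGroup_O3.map _) (mem_map_of_mem _ h)
  · intro h
    have h1 : ((O3 G).subgroupOf N).Normal := inferInstance
    have h2 : IsPGroup 3 ((O3 G).subgroupOf N) :=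
      isPGroup_O3.comap_of_injective N.subtype (Subtype.val_injective)
    exact le_O3 _ h1 h2 (by rwa [mem_subgroupOf])

/-- an element which is both a 3-element and has `n`-th power one, `n` coprime to `3` -/
theorem eq_one_of_pow {w : G} {k n : ℕ} (h1 : w ^ 3 ^ k = 1) (h2 : w ^ n = 1)
    (hn : n.Coprime 3) : w = 1 := by
  have h3 : orderOf w ∣ 3 ^ k := orderOf_dvd_of_pow_eq_one h1
  have h4 : orderOf w ∣ n := orderOf_dvd_of_pow_eq_one h2
  have h5 : orderOf w ∣ 1 := by
    have : (n.Coprime (3 ^ k)) := hn.pow_right k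
    exact (Nat.Coprime.dvd_of_dvd_mul_left (Nat.Coprime.coprime_dvd_left h4 this)
      (by simpa using h3))
  rw [Nat.dvd_one, orderOf_eq_one_iff] at h5
  exact h5

/-- telescoping -/
theorem tel {h v w : G} (h1 : h * v * h⁻¹ = v * w) (h2 : h * w = w * h) (n : ℕ) :
    h ^ n * v * (h ^ n)⁻¹ = v * w ^ n := by
  induction n with
  | zero => simp
  | succ n ih =>
    have e : h ^ (n + 1) * v * (h ^ (n + 1))⁻¹ = h * (h ^ n * v * (h ^ n)⁻¹) * h⁻¹ := by
      rw [pow_succ']; group
    rw [e, ih]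
    have h3 : h * w ^ n * h⁻¹ = w ^ n := by
      have : Commute h (w ^ n) := (show Commute h w from h2).pow_right n
      rw [this.eq]; group
    calc h * (v * w ^ n) * h⁻¹ = (h * v * h⁻¹) * (h * w ^ n * h⁻¹) := by group
      _ = v * w ^ (n + 1) := by rw [h1, h3, mul_assoc, ← pow_succ']

/-- if `[v,h]` is a 3-element centralised by the 3'-element `h` then it is trivial -/
theorem comm_of_tel {h v : G} (hh : (orderOf h).Coprime 3) {k : ℕ}
    (hw : (v⁻¹ * (h * v * h⁻¹)) ^ 3 ^ k = 1)
    (h2 : h * (v⁻¹ * (h * v * h⁻¹)) = (v⁻¹ * (h * v * h⁻¹)) * h) : h * v = v * h := by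
  set w := v⁻¹ * (h * v * h⁻¹) with hwd
  have h1 : h * v * h⁻¹ = v * w := by rw [hwd]; group
  have h3 := tel h1 h2 (orderOf h)
  rw [pow_orderOf_eq_one] at h3
  have h4 : w ^ (orderOf h) = 1 := by simpa using h3.symm
  have h5 := eq_one_of_pow hw h4 hh
  rw [h5, mul_one] at h1
  exact mul_inv_eq_iff_eq_mul.1 h1

/-- A 3-group `R` normalising a nontrivial finite 3-group `U` has a nontrivial fixed point. -/
theorem exists_fixed [Finite G] (R U : Subgroup G) (hR : IsPGroup 3 R) (hU : IsPGroup 3 U)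
    (hne : U ≠ ⊥) (hn : ∀ r ∈ R, ∀ u ∈ U, r * u * r⁻¹ ∈ U) :
    ∃ u ∈ U, u ≠ 1 ∧ ∀ r ∈ R, r * u = u * r := by
  let _ : MulAction R U :=
    { smul := fun r u => ⟨r * u * (r : G)⁻¹, hn r r.2 u u.2⟩
      one_smul := fun u => by
        apply Subtype.ext
        change ((1 : R) : G) * u * ((1 : R) : G)⁻¹ = u
        simp
      mul_smul := fun r s u => by
        apply Subtype.ext
        change ((r * s : R) : G) * u * ((r * s : R) : G)⁻¹ = r * (s * u * (s : G)⁻¹) * (r : G)⁻¹
        simp [mul_assoc] }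
  have hsm : ∀ (r : R) (u : U), ((r • u : U) : G) = r * u * (r : G)⁻¹ := fun r u => rfl
  have h1 : (1 : U) ∈ MulAction.fixedPoints R U := by
    intro r
    apply Subtype.ext
    rw [hsm]
    simp
  have h3 : 3 ∣ Nat.card U := by
    rcases hU.card_eq_or_dvd with h | h
    · exact absurd ((Subgroup.card_eq_one).1 h) hne
    · exact h
  obtain ⟨b, hb, hb1⟩ := hR.exists_fixed_point_of_prime_dvd_card_of_fixed_point U h3 h1
  refine ⟨b, b.2, fun h => hb1 (Subtype.ext (by simpa using h.symm)), fun r hr => ?_⟩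
  have h4 := congrArg Subtype.val (hb ⟨r, hr⟩)
  rw [hsm] at h4
  exact mul_inv_eq_iff_eq_mul.1 h4

theorem solvable_sup (N M : Subgroup G) (hN : N.Normal) (hNs : Group.IsSolvable N)
    (hMs : Group.IsSolvable M) : Group.IsSolvable (N ⊔ M : Subgroup G) := by
  have := hNs
  have := hMs
  -- the image of `M` in the quotient by `N`
  have h1 : Group.IsSolvable (M.map (QuotientGroup.mk' N)) :=
    Group.isSolvable_of_surjective (f := (QuotientGroup.mk' N).subgroupMap M)
      ((QuotientGroup.mk' N).subgroupMap_surjective M)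
  have h2 : (N ⊔ M).map (QuotientGroup.mk' N) = M.map (QuotientGroup.mk' N) := by
    rw [Subgroup.map_sup, (Subgroup.map_eq_bot_iff _).2 (by rw [QuotientGroup.ker_mk']),
      bot_sup_eq]
  haveI h3 : Group.IsSolvable ((N ⊔ M).map (QuotientGroup.mk' N)) := by rw [h2]; exact h1
  refine Group.isSolvable_of_ker_le_range (G' := N) (G'' := (N ⊔ M).map (QuotientGroup.mk' N))
    (Subgroup.inclusion le_sup_left) ((QuotientGroup.mk' N).subgroupMap (N ⊔ M)) ?_
  intro x hx
  have hx' : (x : G) ∈ N := by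
    have := congrArg Subtype.val (MonoidHom.mem_ker.1 hx)
    simpa using this
  exact ⟨⟨x, hx'⟩, Subtype.ext rfl⟩

end

end Pool.Agent.Lib.MP_ea8b67_al
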