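import Pool.Agent.Lib.MP_ea8b67_al.Grp

/-!
MP_ea8b67_al: the group `Hat` of order `432 * 16`-type (`C_2 ≀ S_3` replaces `S_4`), its normal
subgroups and membership in the classes.
-/

namespace Pool.Agent.Lib.MP_ea8b67_al

open Subgroup

/-- the fibre product of `C_2 ≀ S_3` and the triangular group over `S_3` -/
def Hat : Subgroup (AA × MM) where
  carrier := {x | x.1.right = MM.rho x.2}
  one_mem' := by simp [map_one]
  mul_mem' := by
    intro a b ha hb
    change a.1.right = _ at ha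
    change b.1.right = _ at hb
    change a.1.right * b.1.right = MM.rho (a.2 * b.2)
    rw [ha, hb, map_mul]
  inv_mem' := by
    intro a ha
    change a.1.right = _ at ha
    change a.1.right⁻¹ = MM.rho (a.2⁻¹)
    rw [ha, map_inv]

theorem Hat.prop (x : Hat) : x.1.1.right = MM.rho x.1.2 := x.2

theorem solvable_Hat : Group.IsSolvable Hat := by
  have := solvable_AA
  have := solvable_MM
  infer_instance

/-- `(A_4 × C_3).2` -/
def N1 : Subgroup Hat := ((MM.sig.comp (MonoidHom.snd AA MM)).comp Hat.subtype).ker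

/-- `3^2 : 2` -/
def N2 : Subgroup Hat := ((MonoidHom.fst AA MM).comp Hat.subtype).ker

/-- the counterexample -/
def TT : Subgroup Hat := ((MM.fd.comp (MonoidHom.snd AA MM)).comp Hat.subtype).ker

instance : N1.Normal := by unfold N1; infer_instance
instance : N2.Normal := by unfold N2; infer_instance
instance : TT.Normal := by unfold TT; infer_instance

theorem mem_N1 {x : Hat} : x ∈ N1 ↔ x.1.2.e = 1 ∧ x.1.2.ga = 0 := by
  constructor
  · intro h
    have h1 : MM.sig x.1.2 = 1 := h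
    exact ⟨congrArg DD.d h1, congrArg DD.x h1⟩
  · intro h
    change MM.sig x.1.2 = 1
    exact DD.ext h.1 h.2

theorem mem_N2 {x : Hat} : x ∈ N2 ↔ x.1.1 = 1 := Iff.rfl

theorem mem_TT {x : Hat} : x ∈ TT ↔ x.1.2.d = 1 := Iff.rfl

/-- the normal subgroup of `AA × DD` isomorphic to `N1` -/
def N1' : Subgroup (AA × DD) :=
  ((DD.del.comp (RegularWreathProduct.rightHom.comp (MonoidHom.fst AA DD))) *
    (DD.del.comp (MonoidHom.snd AA DD))⁻¹).ker

instance : N1'.Normal := by unfold N1'; infer_instance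

theorem mem_N1' {x : AA × DD} : x ∈ N1' ↔ x.1.right.d = x.2.d := by
  change x.1.right.d * (x.2.d)⁻¹ = 1 ↔ _
  exact mul_inv_eq_one

theorem rho_d (m : MM) : (MM.rho m).d = m.d * m.e⁻¹ := rfl
theorem rho_x (m : MM) : (MM.rho m).x = m.al * (m.e⁻¹ : (ZMod 3)ˣ) := rfl

def isoN1 : N1' ≃* N1 where
  toFun x := ⟨⟨(x.1.1, ⟨x.1.2.d, 1, x.1.1.right.x, x.1.2.x, 0⟩), by
      change x.1.1.right = MM.rho _
      ext1
      · rw [rho_d, mem_N1'.1 x.2]; simp
      · rw [rho_x]; simp⟩, mem_N1.2 ⟨rfl, rfl⟩⟩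
  invFun y := ⟨(y.1.1.1, ⟨y.1.1.2.d, y.1.1.2.be⟩), mem_N1'.2 (by
      have h := congrArg DD.d (Hat.prop y.1)
      rw [rho_d, (mem_N1.1 y.2).1] at h
      simpa using h)⟩
  left_inv x := rfl
  right_inv y := by
    have h1 := (mem_N1.1 y.2).1
    have h2 := (mem_N1.1 y.2).2
    have h := congrArg DD.x (Hat.prop y.1)
    rw [rho_x, h1] at h
    apply Subtype.ext
    apply Subtype.ext
    refine Prod.ext rfl ?_
    exact MM.ext rfl h1.symm (by simpa using h) rfl h2.symm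
  map_mul' x y := by
    apply Subtype.ext
    apply Subtype.ext
    refine Prod.ext rfl ?_
    have hx := mem_N1'.1 x.2
    have hy := mem_N1'.1 y.2
    ext1
    · rfl
    · exact (mul_one _).symm
    · change (x.1.1.right * y.1.1.right).x = _
      change _ = (x.1.2.d : ZMod 3) * y.1.1.right.x + x.1.1.right.x * ((1 : (ZMod 3)ˣ) : ZMod 3)
      rw [DD.mul_x, hx, Units.val_one, mul_one]
    · change (x.1.2.d : ZMod 3) * y.1.2.x + x.1.2.x =
        (x.1.2.d : ZMod 3) * y.1.2.x + x.1.1.right.x * 0 + x.1.2.x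
      ring
    · change (0 : ZMod 3) = ((1 : (ZMod 3)ˣ) : ZMod 3) * 0 + 0
      ring

theorem N1_sup_N2 : N1 ⊔ N2 = ⊤ := by
  rw [eq_top_iff]
  intro x _
  -- `x = n1 * n2`
  have hx := Hat.prop x
  have hd := congrArg DD.d hx
  have hxx := congrArg DD.x hx
  rw [rho_d] at hd
  rw [rho_x] at hxx
  let n2 : Hat := ⟨(1, ⟨x.1.2.e, x.1.2.e, 0, 0, x.1.2.ga⟩), by
    change (1 : DD) = MM.rho _
    ext1
    · rw [rho_d]; simp
    · change (0 : ZMod 3) = 0 * _
      rw [zero_mul]⟩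
  let n1 : Hat := ⟨(x.1.1, ⟨x.1.2.d * x.1.2.e⁻¹, 1, x.1.1.right.x,
      x.1.2.be - x.1.1.right.x * x.1.2.ga, 0⟩), by
    change x.1.1.right = MM.rho _
    ext1
    · rw [rho_d, hd]; simp
    · rw [rho_x]; simp⟩
  have h1 : n1 ∈ N1 := mem_N1.2 ⟨rfl, rfl⟩
  have h2 : n2 ∈ N2 := mem_N2.2 rfl
  have h3 : x = n1 * n2 := by
    apply Subtype.ext
    refine Prod.ext ?_ ?_
    · change x.1.1 = x.1.1 * 1
      rw [mul_one]
    · have he : ((x.1.2.e⁻¹ : (ZMod 3)ˣ) : ZMod 3) * (x.1.2.e : ZMod 3) = 1 :=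
        Units.inv_mul x.1.2.e
      ext1
      · change x.1.2.d = x.1.2.d * x.1.2.e⁻¹ * x.1.2.e
        simp
      · change x.1.2.e = 1 * x.1.2.e
        simp
      · change x.1.2.al = ((x.1.2.d * x.1.2.e⁻¹ : (ZMod 3)ˣ) : ZMod 3) * 0 +
          x.1.1.right.x * (x.1.2.e : ZMod 3)
        rw [hxx]
        linear_combination (-x.1.2.al) * he
      · change x.1.2.be = ((x.1.2.d * x.1.2.e⁻¹ : (ZMod 3)ˣ) : ZMod 3) * 0 +
          x.1.1.right.x * x.1.2.ga + (x.1.2.be - x.1.1.right.x * x.1.2.ga)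
        ring
      · change x.1.2.ga = ((1 : (ZMod 3)ˣ) : ZMod 3) * x.1.2.ga + 0
        simp
  rw [h3]
  exact Subgroup.mul_mem_sup h1 h2

/-! ### Membership in Fitting classes -/

theorem CY_N2 : CY N2 := by
  have h1 : Group.IsSolvable N2 := by
    have := solvable_Hat
    infer_instance
  refine CY_of_ker inferInstance h1
    (((MM.fd.comp (MonoidHom.snd AA MM)).comp Hat.subtype).comp N2.subtype) ?_
  intro x hx
  have hd : x.1.1.2.d = 1 := hx
  have hw : x.1.1.1 = 1 := mem_N2.1 x.2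
  have h2 := Hat.prop x.1
  rw [hw] at h2
  have h3 := congrArg DD.d h2
  have h4 := congrArg DD.x h2
  rw [rho_d, hd] at h3
  rw [rho_x] at h4
  have he : x.1.1.2.e = 1 := by
    have : (1 : (ZMod 3)ˣ) = 1 * x.1.1.2.e⁻¹ := h3
    simpa using this.symm
  have hal : x.1.1.2.al = 0 := by
    rw [he] at h4
    have : (0 : ZMod 3) = x.1.1.2.al * ((1⁻¹ : (ZMod 3)ˣ) : ZMod 3) := h4
    simpa using this.symm
  have h33 : ∀ z : ZMod 3, z + (z + z) = 0 := by decide
  apply Subtype.ext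
  apply Subtype.ext
  refine Prod.ext ?_ ?_
  · change x.1.1.1 ^ 3 = 1
    rw [hw, one_pow]
  · change x.1.1.2 ^ 3 = 1
    rw [pow_succ', pow_two]
    ext1
    · simp only [MM.mul_d, hd, MM.one_d, mul_one]
    · simp only [MM.mul_e, he, MM.one_e, mul_one]
    · simp only [MM.mul_al, hal, MM.one_al, mul_zero, zero_mul, add_zero]
    · simp only [MM.mul_be, MM.mul_ga, hd, he, hal, MM.one_be, Units.val_one, one_mul, zero_mul]
      linear_combination h33 x.1.1.2.be
    · simp only [MM.mul_ga, he, MM.one_ga, Units.val_one, one_mul]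
      linear_combination h33 x.1.1.2.ga

/-- membership of `TT` in every Fitting class containing `CW` and `CY` -/
theorem TT_mem (F : (G : Type) → [Group G] → Prop)
    (hiso : ∀ (G H : Type) [Group G] [Group H], (G ≃* H) → F G → F H)
    (hnor : ∀ (G : Type) [Group G] (N : Subgroup G), N.Normal → F G → F N)
    (hprod : ∀ (G : Type) [Group G] [Finite G] (N M : Subgroup G), N.Normal → M.Normal → F N →
      F M → F ↥(N ⊔ M))
    (hW : ∀ (G : Type) [Group G], CW G → F G) (hY : ∀ (G : Type) [Group G], CY G → F G) :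
    F TT := by
  have hA : F AA := hW _ CW_AA
  have hD : F DD := hY _ CY_DD
  -- the direct product
  have hAD : F (AA × DD) := by
    let iA : AA ≃* (MonoidHom.snd AA DD).ker :=
      { toFun := fun a => ⟨(a, 1), rfl⟩
        invFun := fun x => x.1.1
        left_inv := fun a => rfl
        right_inv := fun x => Subtype.ext (Prod.ext rfl (show (1 : DD) = x.1.2 from x.2.symm))
        map_mul' := fun a b => Subtype.ext (Prod.ext rfl (mul_one _).symm) }
    let iD : DD ≃* (MonoidHom.fst AA DD).ker :=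
      { toFun := fun a => ⟨(1, a), rfl⟩
        invFun := fun x => x.1.2
        left_inv := fun a => rfl
        right_inv := fun x => Subtype.ext (Prod.ext (show (1 : AA) = x.1.1 from x.2.symm) rfl)
        map_mul' := fun a b => Subtype.ext (Prod.ext (mul_one _).symm rfl) }
    have h1 := hprod (AA × DD) _ _ inferInstance inferInstance (hiso _ _ iA hA) (hiso _ _ iD hD)
    have h2 : (MonoidHom.snd AA DD).ker ⊔ (MonoidHom.fst AA DD).ker = ⊤ := by
      rw [eq_top_iff]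
      intro x _
      have : x = (x.1, 1) * (1, x.2) := by ext1 <;> simp
      rw [this]
      exact Subgroup.mul_mem_sup rfl rfl
    rw [h2] at h1
    exact hiso _ _ Subgroup.topEquiv h1
  have hN1 : F N1 := hiso _ _ isoN1 (hnor _ N1' inferInstance hAD)
  have hN2 : F N2 := hY _ CY_N2
  have hH : F Hat := by
    have h1 := hprod Hat N1 N2 inferInstance inferInstance hN1 hN2
    rw [N1_sup_N2] at h1
    exact hiso _ _ Subgroup.topEquiv h1
  exact hnor _ TT inferInstance hH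

/-- elements of normal 3-subgroups of `TT` -/
theorem form (U : Subgroup TT) (hU : U.Normal) (hU3 : IsPGroup 3 U) (u : TT) (hu : u ∈ U) :
    u.1.1.1 = 1 ∧ u.1.1.2.d = 1 ∧ u.1.1.2.e = 1 ∧ u.1.1.2.al = 0 := by
  -- the base group
  let S : Subgroup TT := (((MonoidHom.snd AA MM).comp Hat.subtype).comp TT.subtype).ker
  have hS : S.Normal := inferInstance
  have hS2 : ∀ s ∈ S, s ^ 2 = 1 := by
    intro s hs
    have h1 : s.1.1.2 = 1 := hs
    have h2 := Hat.prop s.1
    rw [h1, map_one] at h2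
    apply Subtype.ext
    apply Subtype.ext
    refine Prod.ext ?_ ?_
    · change s.1.1.1 ^ 2 = 1
      exact sq_one_of_right h2
    · change s.1.1.2 ^ 2 = 1
      rw [h1, one_pow]
  have hr : u.1.1.1.right = 1 := by
    apply right_of_comm
    intro s
    let s' : TT := ⟨⟨(⟨s, 1⟩, 1), by
      change (1 : DD) = MM.rho 1
      rw [map_one]⟩, mem_TT.2 rfl⟩
    have h1 := comm_of_sq U S hU hS hU3 hS2 hu (show s' ∈ S from rfl)
    exact congrArg (fun z : TT => z.1.1.1) h1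
  have hd : u.1.1.2.d = 1 := mem_TT.1 u.2
  have h2 := Hat.prop u.1
  rw [hr] at h2
  have h3 := congrArg DD.d h2
  have h4 := congrArg DD.x h2
  rw [rho_d, hd] at h3
  rw [rho_x] at h4
  have he : u.1.1.2.e = 1 := by
    have : (1 : (ZMod 3)ˣ) = 1 * u.1.1.2.e⁻¹ := h3
    simpa using this.symm
  have hal : u.1.1.2.al = 0 := by
    rw [he] at h4
    have : (0 : ZMod 3) = u.1.1.2.al * ((1⁻¹ : (ZMod 3)ˣ) : ZMod 3) := h4
    simpa using this.symm
  refine ⟨?_, hd, he, hal⟩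
  obtain ⟨k, hk⟩ := hU3 ⟨u, hu⟩
  have hk' : u.1.1.1 ^ 3 ^ k = 1 := congrArg (fun z : U => z.1.1.1.1) hk
  exact eq_one_of_pow hk' (sq_one_of_right hr) (by norm_num)

/-- the elements of `O3 TT` -/
def zz (b c : ZMod 3) : TT := ⟨⟨(1, ⟨1, 1, 0, b, c⟩), by
  change (1 : DD) = MM.rho _
  ext1
  · rw [rho_d]; simp
  · rw [rho_x]; simp⟩, mem_TT.2 rfl⟩

theorem zz_of_form {u : TT} (h : u.1.1.1 = 1 ∧ u.1.1.2.d = 1 ∧ u.1.1.2.e = 1 ∧ u.1.1.2.al = 0) :
    u = zz u.1.1.2.be u.1.1.2.ga := by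
  apply Subtype.ext
  apply Subtype.ext
  exact Prod.ext h.1 (MM.ext h.2.1 h.2.2.1 h.2.2.2 rfl rfl)

theorem zz_central (b : ZMod 3) (g : TT) : g * zz b 0 = zz b 0 * g := by
  have hd : g.1.1.2.d = 1 := mem_TT.1 g.2
  apply Subtype.ext
  apply Subtype.ext
  refine Prod.ext ?_ ?_
  · change g.1.1.1 * 1 = 1 * g.1.1.1
    simp
  · change g.1.1.2 * ⟨1, 1, 0, b, 0⟩ = ⟨1, 1, 0, b, 0⟩ * g.1.1.2
    ext1
    · simp only [MM.mul_d, mul_one, one_mul]
    · simp only [MM.mul_e, mul_one, one_mul]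
    · simp only [MM.mul_al, Units.val_one]; ring
    · simp only [MM.mul_be, hd, Units.val_one]; ring
    · simp only [MM.mul_ga, Units.val_one]; ring

/-- the element `a` -/
def ea : TT := ⟨⟨(RegularWreathProduct.inl ⟨1, 1⟩, ⟨1, 1, 1, 0, 0⟩), by
  change (⟨1, 1⟩ : DD) = MM.rho _
  ext1
  · rw [rho_d]; simp
  · rw [rho_x]; simp⟩, mem_TT.2 rfl⟩

theorem ea_comm (b c : ZMod 3) : ea * zz b c * ea⁻¹ * (zz b c)⁻¹ = zz c 0 := by
  rw [mul_inv_eq_iff_eq_mul, mul_inv_eq_iff_eq_mul, mul_assoc]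
  apply Subtype.ext
  apply Subtype.ext
  refine Prod.ext ?_ ?_
  · change (RegularWreathProduct.inl ⟨1, 1⟩ : AA) * 1 = 1 * (1 * RegularWreathProduct.inl ⟨1, 1⟩)
    simp
  · change (⟨1, 1, 1, 0, 0⟩ : MM) * ⟨1, 1, 0, b, c⟩ =
      ⟨1, 1, 0, c, 0⟩ * (⟨1, 1, 0, b, c⟩ * ⟨1, 1, 1, 0, 0⟩)
    ext1
    · simp only [MM.mul_d, mul_one]
    · simp only [MM.mul_e, mul_one]
    · simp only [MM.mul_al, MM.mul_e, Units.val_one]; ring
    · simp only [MM.mul_be, MM.mul_ga, Units.val_one]; ring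
    · simp only [MM.mul_ga, Units.val_one]; ring

theorem zz_ne {b : ZMod 3} (hb : b ≠ 0) : zz b 0 ≠ 1 := by
  intro h
  apply hb
  exact congrArg (fun z : TT => z.1.1.2.be) h

theorem solvable_TT : Group.IsSolvable TT := by
  have := solvable_Hat
  infer_instance

theorem CZ_TT : CZ TT := by
  refine ⟨inferInstance, solvable_TT, fun U hU hU3 hne => ?_⟩
  obtain ⟨u, hu1⟩ := Subgroup.ne_bot_iff_exists_ne_one.1 hne
  have hu := zz_of_form (form U hU hU3 u.1 u.2)
  by_cases hc : u.1.1.1.2.ga = 0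
  · have hb : u.1.1.1.2.be ≠ 0 := by
      intro hb
      apply hu1
      apply Subtype.ext
      rw [hu, hb, hc]
      rfl
    refine ⟨zz u.1.1.1.2.be 0, ?_, zz_ne hb, zz_central _⟩
    rw [hc] at hu
    rw [← hu]
    exact u.2
  · refine ⟨zz u.1.1.1.2.ga 0, ?_, zz_ne hc, zz_central _⟩
    rw [← ea_comm u.1.1.1.2.be, ← hu]
    exact U.mul_mem (hU.conj_mem _ u.2 _) (U.inv_mem u.2)

/-- the involution `t` -/
def et : TT := ⟨⟨(RegularWreathProduct.inl ⟨-1, 0⟩, ⟨1, -1, 0, 0, 0⟩), by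
  change (⟨-1, 0⟩ : DD) = MM.rho _
  ext1
  · rw [rho_d]; simp
  · rw [rho_x]; simp⟩, mem_TT.2 rfl⟩

theorem not_CW_TT : ¬ CW TT := by
  rintro ⟨_, _, h⟩
  -- the element `c` lies in `O3 TT`
  have hL : (((MonoidHom.fst AA MM).comp Hat.subtype).comp TT.subtype).ker ≤ O3 TT := by
    refine le_O3 _ inferInstance fun x => ⟨1, Subtype.ext ?_⟩
    have hw : x.1.1.1.1 = 1 := x.2
    have hd : x.1.1.1.2.d = 1 := mem_TT.1 x.1.2
    have h2 := Hat.prop x.1.1
    rw [hw] at h2
    have h3 := congrArg DD.d h2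
    have h4 := congrArg DD.x h2
    rw [rho_d, hd] at h3
    rw [rho_x] at h4
    have he : x.1.1.1.2.e = 1 := by
      have : (1 : (ZMod 3)ˣ) = 1 * x.1.1.1.2.e⁻¹ := h3
      simpa using this.symm
    have hal : x.1.1.1.2.al = 0 := by
      rw [he] at h4
      have : (0 : ZMod 3) = x.1.1.1.2.al * ((1⁻¹ : (ZMod 3)ˣ) : ZMod 3) := h4
      simpa using this.symm
    have h33 : ∀ z : ZMod 3, z + (z + z) = 0 := by decide
    apply Subtype.ext
    apply Subtype.ext
    refine Prod.ext ?_ ?_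
    · change x.1.1.1.1 ^ 3 ^ 1 = 1
      rw [hw, one_pow]
    · change x.1.1.1.2 ^ 3 ^ 1 = 1
      rw [pow_one, pow_succ', pow_two]
      ext1
      · simp only [MM.mul_d, hd, MM.one_d, mul_one]
      · simp only [MM.mul_e, he, MM.one_e, mul_one]
      · simp only [MM.mul_al, hal, MM.one_al, mul_zero, zero_mul, add_zero]
      · simp only [MM.mul_be, MM.mul_ga, hd, he, hal, MM.one_be, Units.val_one, one_mul, zero_mul]
        linear_combination h33 x.1.1.1.2.be
      · simp only [MM.mul_ga, he, MM.one_ga, Units.val_one, one_mul]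
        linear_combination h33 x.1.1.1.2.ga
  have hc : zz 0 1 ∈ O3 TT := hL rfl
  have ht : (orderOf et).Coprime 3 := by
    have h1 : orderOf et ∣ 2 := by
      apply orderOf_dvd_of_pow_eq_one
      apply Subtype.ext
      apply Subtype.ext
      refine Prod.ext ?_ ?_
      · change (RegularWreathProduct.inl ⟨-1, 0⟩ : AA) ^ 2 = 1
        rw [← map_pow]
        have : (⟨-1, 0⟩ : DD) ^ 2 = 1 := by
          rw [pow_two]
          ext1
          · simp only [DD.mul_d, DD.one_d]; decide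
          · simp only [DD.mul_x, DD.one_x]; ring
        rw [this, map_one]
      · change (⟨1, -1, 0, 0, 0⟩ : MM) ^ 2 = 1
        rw [pow_two]
        ext1
        · simp only [MM.mul_d, MM.one_d, mul_one]
        · simp only [MM.mul_e, MM.one_e]; decide
        · simp only [MM.mul_al, MM.one_al]; ring
        · simp only [MM.mul_be, MM.one_be]; ring
        · simp only [MM.mul_ga, MM.one_ga]; ring
    exact Nat.Coprime.coprime_dvd_left h1 (by norm_num)
  have h1 := h et ht _ hc fun r hr => by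
    have h2 := zz_of_form (form (O3 TT) inferInstance isPGroup_O3 r hr)
    rw [h2]
    apply Subtype.ext
    apply Subtype.ext
    refine Prod.ext rfl ?_
    change (⟨1, 1, 0, r.1.1.2.be, r.1.1.2.ga⟩ : MM) * ⟨1, 1, 0, 0, 1⟩ =
      ⟨1, 1, 0, 0, 1⟩ * ⟨1, 1, 0, r.1.1.2.be, r.1.1.2.ga⟩
    ext1
    · simp only [MM.mul_d]
    · simp only [MM.mul_e]
    · simp only [MM.mul_al]
    · simp only [MM.mul_be, Units.val_one]; ring
    · simp only [MM.mul_ga, Units.val_one]; ring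
  have h2 := congrArg (fun z : TT => z.1.1.2.ga) h1
  have h3 : ((-1 : (ZMod 3)ˣ) : ZMod 3) * 1 + 0 = ((1 : (ZMod 3)ˣ) : ZMod 3) * 0 + 1 := h2
  revert h3
  decide

/-! ### the three classes are soluble Fitting classes -/

theorem sf_CW : (∀ (G : Type) [Group G], CW G → Finite G ∧ Group.IsSolvable G) ∧
    (∃ (G : Type) (_ : Group G), CW G) ∧
    (∀ (G H : Type) [Group G] [Group H], (G ≃* H) → CW G → CW H) ∧
    (∀ (G : Type) [Group G] (N : Subgroup G), N.Normal → CW G → CW N) ∧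
    (∀ (G : Type) [Group G] [Finite G] (N M : Subgroup G),
      N.Normal → M.Normal → CW N → CW M → CW ↥(N ⊔ M)) :=
  ⟨fun _ _ h => ⟨h.1, h.2.1⟩, ⟨AA, inferInstance, CW_AA⟩, CW.iso, CW.normal,
    prod_of_top CW CW.iso CW.prod⟩

theorem sf_CY : (∀ (G : Type) [Group G], CY G → Finite G ∧ Group.IsSolvable G) ∧
    (∃ (G : Type) (_ : Group G), CY G) ∧
    (∀ (G H : Type) [Group G] [Group H], (G ≃* H) → CY G → CY H) ∧
    (∀ (G : Type) [Group G] (N : Subgroup G), N.Normal → CY G → CY N) ∧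
    (∀ (G : Type) [Group G] [Finite G] (N M : Subgroup G),
      N.Normal → M.Normal → CY N → CY M → CY ↥(N ⊔ M)) :=
  ⟨fun _ _ h => ⟨h.1, h.2.1⟩, ⟨DD, inferInstance, CY_DD⟩, CY.iso, CY.normal,
    prod_of_top CY CY.iso CY.prod⟩

theorem sf_CZ : (∀ (G : Type) [Group G], CZ G → Finite G ∧ Group.IsSolvable G) ∧
    (∃ (G : Type) (_ : Group G), CZ G) ∧
    (∀ (G H : Type) [Group G] [Group H], (G ≃* H) → CZ G → CZ H) ∧
    (∀ (G : Type) [Group G] (N : Subgroup G), N.Normal → CZ G → CZ N) ∧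
    (∀ (G : Type) [Group G] [Finite G] (N M : Subgroup G),
      N.Normal → M.Normal → CZ N → CZ M → CZ ↥(N ⊔ M)) :=
  ⟨fun _ _ h => ⟨h.1, h.2.1⟩, ⟨TT, inferInstance, CZ_TT⟩, CZ.iso, CZ.normal,
    prod_of_top CZ CZ.iso CZ.prod⟩

end Pool.Agent.Lib.MP_ea8b67_al
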