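import Pool.Agent.Lib.MP_ea8b67_al.Classes3

/-!
MP_ea8b67_al: the concrete groups.
-/

namespace Pool.Agent.Lib.MP_ea8b67_al

open Subgroup

/-- affine group of the line over `ZMod 3`: matrices `[[d, x], [0, 1]]` -/
@[ext] structure DD where
  d : (ZMod 3)ˣ
  x : ZMod 3

namespace DD

instance : Mul DD := ⟨fun a b => ⟨a.d * b.d, a.d * b.x + a.x⟩⟩
instance : One DD := ⟨⟨1, 0⟩⟩
instance : Inv DD := ⟨fun a => ⟨a.d⁻¹, -((a.d⁻¹ : (ZMod 3)ˣ) * a.x)⟩⟩

@[simp] theorem mul_d (a b : DD) : (a * b).d = a.d * b.d := rfl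
@[simp] theorem mul_x (a b : DD) : (a * b).x = a.d * b.x + a.x := rfl
@[simp] theorem one_d : (1 : DD).d = 1 := rfl
@[simp] theorem one_x : (1 : DD).x = 0 := rfl
@[simp] theorem inv_d (a : DD) : (a⁻¹).d = a.d⁻¹ := rfl
@[simp] theorem inv_x (a : DD) : (a⁻¹).x = -((a.d⁻¹ : (ZMod 3)ˣ) * a.x) := rfl

instance : Group DD := Group.ofLeftAxioms
  (fun a b c => by
    ext1
    · simp only [mul_d, mul_assoc]
    · simp only [mul_x, mul_d, Units.val_mul]; ring)
  (fun a => by
    ext1
    · simp only [mul_d, one_d, one_mul]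
    · simp only [mul_x, one_d, one_x, Units.val_one]; ring)
  (fun a => by
    ext1
    · simp only [mul_d, inv_d, one_d, inv_mul_cancel]
    · simp only [mul_x, inv_d, inv_x, one_x]; ring)

/-- the diagonal entry -/
def del : DD →* (ZMod 3)ˣ where
  toFun a := a.d
  map_one' := rfl
  map_mul' _ _ := rfl

instance : Finite DD :=
  Finite.of_injective (fun a : DD => (a.d, a.x)) fun a b h => by
    simp only [Prod.mk.injEq] at h
    exact DD.ext h.1 h.2

end DD

/-- upper triangular matrices `[[d, al, be], [0, e, ga], [0, 0, 1]]` over `ZMod 3` -/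
@[ext] structure MM where
  d : (ZMod 3)ˣ
  e : (ZMod 3)ˣ
  al : ZMod 3
  be : ZMod 3
  ga : ZMod 3

namespace MM

instance : Mul MM := ⟨fun a b => ⟨a.d * b.d, a.e * b.e, a.d * b.al + a.al * b.e,
  a.d * b.be + a.al * b.ga + a.be, a.e * b.ga + a.ga⟩⟩
instance : One MM := ⟨⟨1, 1, 0, 0, 0⟩⟩
instance : Inv MM := ⟨fun a => ⟨a.d⁻¹, a.e⁻¹, -((a.d⁻¹ : (ZMod 3)ˣ) * a.al * (a.e⁻¹ : (ZMod 3)ˣ)),
  (a.d⁻¹ : (ZMod 3)ˣ) * (a.al * (a.e⁻¹ : (ZMod 3)ˣ) * a.ga - a.be),
  -((a.e⁻¹ : (ZMod 3)ˣ) * a.ga)⟩⟩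

@[simp] theorem mul_d (a b : MM) : (a * b).d = a.d * b.d := rfl
@[simp] theorem mul_e (a b : MM) : (a * b).e = a.e * b.e := rfl
@[simp] theorem mul_al (a b : MM) : (a * b).al = a.d * b.al + a.al * b.e := rfl
@[simp] theorem mul_be (a b : MM) : (a * b).be = a.d * b.be + a.al * b.ga + a.be := rfl
@[simp] theorem mul_ga (a b : MM) : (a * b).ga = a.e * b.ga + a.ga := rfl
@[simp] theorem one_d : (1 : MM).d = 1 := rfl
@[simp] theorem one_e : (1 : MM).e = 1 := rfl
@[simp] theorem one_al : (1 : MM).al = 0 := rfl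
@[simp] theorem one_be : (1 : MM).be = 0 := rfl
@[simp] theorem one_ga : (1 : MM).ga = 0 := rfl
@[simp] theorem inv_d (a : MM) : (a⁻¹).d = a.d⁻¹ := rfl
@[simp] theorem inv_e (a : MM) : (a⁻¹).e = a.e⁻¹ := rfl
@[simp] theorem inv_al (a : MM) :
    (a⁻¹).al = -((a.d⁻¹ : (ZMod 3)ˣ) * a.al * (a.e⁻¹ : (ZMod 3)ˣ)) := rfl
@[simp] theorem inv_be (a : MM) :
    (a⁻¹).be = (a.d⁻¹ : (ZMod 3)ˣ) * (a.al * (a.e⁻¹ : (ZMod 3)ˣ) * a.ga - a.be) := rfl
@[simp] theorem inv_ga (a : MM) : (a⁻¹).ga = -((a.e⁻¹ : (ZMod 3)ˣ) * a.ga) := rfl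

instance : Group MM := Group.ofLeftAxioms
  (fun a b c => by
    ext1
    · simp only [mul_d, mul_assoc]
    · simp only [mul_e, mul_assoc]
    · simp only [mul_d, mul_e, mul_al, Units.val_mul]; ring
    · simp only [mul_d, mul_e, mul_al, mul_be, mul_ga, Units.val_mul]; ring
    · simp only [mul_e, mul_ga, Units.val_mul]; ring)
  (fun a => by
    ext1
    · simp only [mul_d, one_d, one_mul]
    · simp only [mul_e, one_e, one_mul]
    · simp only [mul_al, one_d, one_al, Units.val_one]; ring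
    · simp only [mul_be, one_d, one_al, one_be, Units.val_one]; ring
    · simp only [mul_ga, one_e, one_ga, Units.val_one]; ring)
  (fun a => by
    have h : ((a.e⁻¹ : (ZMod 3)ˣ) : ZMod 3) * (a.e : ZMod 3) = 1 := Units.inv_mul a.e
    ext1
    · simp only [mul_d, inv_d, one_d, inv_mul_cancel]
    · simp only [mul_e, inv_e, one_e, inv_mul_cancel]
    · simp only [mul_al, inv_d, inv_al, one_al]
      linear_combination (-((a.d⁻¹ : (ZMod 3)ˣ) : ZMod 3) * a.al) * h
    · simp only [mul_be, inv_d, inv_al, inv_be, one_be]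
      ring
    · simp only [mul_ga, inv_e, inv_ga, one_ga]
      ring)

instance : Finite MM :=
  Finite.of_injective (fun a : MM => (a.d, a.e, a.al, a.be, a.ga)) fun a b h => by
    simp only [Prod.mk.injEq] at h
    exact MM.ext h.1 h.2.1 h.2.2.1 h.2.2.2.1 h.2.2.2.2

/-- the upper left block modulo scalars -/
def rho : MM →* DD where
  toFun m := ⟨m.d * m.e⁻¹, m.al * (m.e⁻¹ : (ZMod 3)ˣ)⟩
  map_one' := by
    ext1
    · simp only [one_d, one_e, inv_one, one_mul, DD.one_d]
    · simp only [one_al, zero_mul, DD.one_x]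
  map_mul' a b := by
    have h : ((b.e⁻¹ : (ZMod 3)ˣ) : ZMod 3) * (b.e : ZMod 3) = 1 := Units.inv_mul b.e
    ext1
    · simp only [mul_d, mul_e, DD.mul_d, mul_inv]
      exact mul_mul_mul_comm _ _ _ _
    · simp only [mul_al, mul_e, DD.mul_x, mul_inv, Units.val_mul]
      linear_combination (a.al * ((a.e⁻¹ : (ZMod 3)ˣ) : ZMod 3)) * h

/-- the lower right block -/
def sig : MM →* DD where
  toFun m := ⟨m.e, m.ga⟩
  map_one' := rfl
  map_mul' _ _ := rfl

/-- the first diagonal entry -/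
def fd : MM →* (ZMod 3)ˣ where
  toFun m := m.d
  map_one' := rfl
  map_mul' _ _ := rfl

end MM

/-! ### solvability -/

theorem solvable_DD : Group.IsSolvable DD := by
  let i : Multiplicative (ZMod 3) →* DD :=
    { toFun := fun x => ⟨1, x.toAdd⟩
      map_one' := rfl
      map_mul' := fun a b => by ext1 <;> simp [add_comm] }
  refine Group.isSolvable_of_ker_le_range i DD.del ?_
  intro a ha
  have : a.d = 1 := ha
  exact ⟨Multiplicative.ofAdd a.x, DD.ext this.symm rfl⟩

theorem solvable_MM : Group.IsSolvable MM := by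
  have := solvable_DD
  let i : Multiplicative (ZMod 3) →* MM :=
    { toFun := fun x => ⟨1, 1, 0, x.toAdd, 0⟩
      map_one' := rfl
      map_mul' := fun a b => by ext1 <;> simp [add_comm] }
  refine Group.isSolvable_of_ker_le_range i (MM.rho.prod MM.sig) ?_
  intro a ha
  have h0 : (MM.rho a, MM.sig a) = 1 := ha
  have h1 : MM.rho a = 1 := congrArg Prod.fst h0
  have h2 : MM.sig a = 1 := congrArg Prod.snd h0
  have h3 : a.e = 1 := congrArg DD.d h2
  have h4 : a.ga = 0 := congrArg DD.x h2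
  have h5 : a.d * a.e⁻¹ = 1 := congrArg DD.d h1
  have h6 : a.al * (a.e⁻¹ : (ZMod 3)ˣ) = 0 := congrArg DD.x h1
  rw [h3] at h5 h6
  have h7 : a.d = 1 := by simpa using h5
  have h8 : a.al = 0 := by simpa using h6
  exact ⟨Multiplicative.ofAdd a.be, MM.ext h7.symm h3.symm h8.symm rfl h4.symm⟩

/-- `C_2 ≀ S_3` -/
abbrev AA : Type := RegularWreathProduct (Multiplicative (ZMod 2)) DD

theorem solvable_AA : Group.IsSolvable AA := by
  have := solvable_DD
  let i : (DD → Multiplicative (ZMod 2)) →* AA :=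
    { toFun := fun s => ⟨s, 1⟩
      map_one' := rfl
      map_mul' := fun a b => by
        ext1
        · funext y; simp
        · simp }
  refine Group.isSolvable_of_ker_le_range i (RegularWreathProduct.rightHom) ?_
  intro a ha
  have : a.right = 1 := ha
  exact ⟨a.left, RegularWreathProduct.ext rfl this.symm⟩

/-! ### 3-elements and the base group -/

theorem sq_one_of_right {w : AA} (h : w.right = 1) : w ^ 2 = 1 := by
  rw [pow_two]
  ext1
  · funext y
    have h2 : ∀ z : Multiplicative (ZMod 2), z * z = 1 := by decide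
    simp [h, h2]
  · simp [h]

/-- an element commuting with the base group has trivial right component -/
theorem right_of_comm {w : AA} (h : ∀ s : DD → Multiplicative (ZMod 2),
    w * ⟨s, 1⟩ = ⟨s, 1⟩ * w) : w.right = 1 := by
  classical
  have h1 := congrArg (fun z : AA => z.left 1)
    (h (fun y => if y = 1 then Multiplicative.ofAdd 1 else 1))
  simp only [RegularWreathProduct.mul_left, Pi.mul_apply, mul_one, inv_one] at h1
  by_contra hne
  have hne' : ¬ (w.right⁻¹ = 1) := by simpa using hne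
  rw [if_neg hne', if_pos trivial, mul_one] at h1
  have h2 : ∀ z : Multiplicative (ZMod 2), z ≠ Multiplicative.ofAdd 1 * z := by decide
  exact h2 _ h1

/-- a 3-element commutes with a normal subgroup of exponent two -/
theorem comm_of_sq {G : Type} [Group G] (U S : Subgroup G) (hU : U.Normal) (hS : S.Normal)
    (hU3 : IsPGroup 3 U) (hS2 : ∀ s ∈ S, s ^ 2 = 1) {u s : G} (hu : u ∈ U) (hs : s ∈ S) :
    u * s = s * u := by
  have h1 : u * s * u⁻¹ * s⁻¹ ∈ U := by
    have e : u * s * u⁻¹ * s⁻¹ = u * (s * u⁻¹ * s⁻¹) := by group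
    rw [e]
    exact U.mul_mem hu (hU.conj_mem _ (U.inv_mem hu) s)
  have h2 : u * s * u⁻¹ * s⁻¹ ∈ S := S.mul_mem (hS.conj_mem s hs u) (S.inv_mem hs)
  obtain ⟨k, hk⟩ := hU3 ⟨_, h1⟩
  have h3 : (u * s * u⁻¹ * s⁻¹) ^ 3 ^ k = 1 := by simpa using congrArg Subtype.val hk
  have h4 := eq_one_of_pow h3 (hS2 _ h2) (by norm_num)
  have h5 : u * s * (s * u)⁻¹ = 1 := by rw [← h4]; group
  exact mul_inv_eq_one.1 h5

theorem O3_AA : O3 AA = ⊥ := by
  rw [eq_bot_iff]
  intro w hw
  have hS : (RegularWreathProduct.rightHom : AA →* DD).ker.Normal := inferInstance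
  have h1 : w.right = 1 := by
    apply right_of_comm
    intro s
    exact comm_of_sq (O3 AA) (RegularWreathProduct.rightHom : AA →* DD).ker inferInstance hS
      isPGroup_O3 (fun s hs => sq_one_of_right hs) hw (show (⟨s, 1⟩ : AA) ∈ _ from rfl)
  obtain ⟨k, hk⟩ := isPGroup_O3 (⟨w, hw⟩ : O3 AA)
  have h3 : w ^ 3 ^ k = 1 := by simpa using congrArg Subtype.val hk
  exact eq_one_of_pow h3 (sq_one_of_right h1) (by norm_num)

theorem CW_AA : CW AA := by
  refine ⟨inferInstance, solvable_AA, fun h _ v hv _ => ?_⟩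
  rw [O3_AA, Subgroup.mem_bot] at hv
  rw [hv]; simp

/-- a criterion for the class `CY` -/
theorem CY_of_ker {G : Type} [Group G] (hfin : Finite G) (hs : Group.IsSolvable G)
    (f : G →* (ZMod 3)ˣ) (h : ∀ x : G, f x = 1 → x ^ 3 = 1) : CY G := by
  refine ⟨hfin, hs, fun h3 => ?_⟩
  have h1 : f.ker ≤ O3 G := le_O3 _ inferInstance fun x => ⟨1, Subtype.ext (by
    simpa using h x x.2)⟩
  have h2 : (O3 G).index ∣ f.ker.index := Subgroup.index_dvd_of_le h1
  rw [Subgroup.index_ker] at h2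
  have h4 : Nat.card f.range ∣ Nat.card (ZMod 3)ˣ := Subgroup.card_subgroup_dvd_card _
  have h5 : Nat.card (ZMod 3)ˣ = 2 := by
    rw [Nat.card_eq_fintype_card]; rfl
  rw [h5] at h4
  have := (h3.trans h2).trans h4
  omega

theorem CY_DD : CY DD := by
  refine CY_of_ker inferInstance solvable_DD DD.del fun a ha => ?_
  have h : a.d = 1 := ha
  have h3 : ∀ z : ZMod 3, z + (z + z) = 0 := by decide
  rw [pow_succ', pow_two]
  ext1
  · simp [h]
  · simp only [DD.mul_x, DD.one_x, h, Units.val_one, one_mul]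
    have := h3 a.x
    linear_combination this

end Pool.Agent.Lib.MP_ea8b67_al
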